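import Mathlib
import Pool.Agent.Lib.MP_bf1dc4_ag.Main

/-!
# Primality of the diagonal and anti-diagonal commutator ideals

For every field `K` and every `n ≥ 3`, the ideal generated by the diagonal and anti-diagonal
entries of `XY - YX`, and the ideal generated by its anti-diagonal entries, are prime.
-/

namespace Pool.Agent.Results.MP_bf1dc4_ag.PrimeAll

open MvPolynomial

universe u

/-- The generic `n × n` matrix `X = (x_{ij})`; the variable `x_{ij}` is indexed by
`Sum.inl (i, j)`. -/
noncomputable def genX (K : Type u) [Field K] (n : ℕ) :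
    Matrix (Fin n) (Fin n) (MvPolynomial ((Fin n × Fin n) ⊕ (Fin n × Fin n)) K) :=
  Matrix.of fun i j => MvPolynomial.X (Sum.inl (i, j))

/-- The generic `n × n` matrix `Y = (y_{ij})`; the variable `y_{ij}` is indexed by
`Sum.inr (i, j)`. -/
noncomputable def genY (K : Type u) [Field K] (n : ℕ) :
    Matrix (Fin n) (Fin n) (MvPolynomial ((Fin n × Fin n) ⊕ (Fin n × Fin n)) K) :=
  Matrix.of fun i j => MvPolynomial.X (Sum.inr (i, j))

/-- The commutator matrix `C = XY - YX`. -/
noncomputable def commC (K : Type u) [Field K] (n : ℕ) :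
    Matrix (Fin n) (Fin n) (MvPolynomial ((Fin n × Fin n) ⊕ (Fin n × Fin n)) K) :=
  genX K n * genY K n - genY K n * genX K n

/-- The ideal `I` generated by the diagonal entries of `C`. -/
noncomputable def idealI (K : Type u) [Field K] (n : ℕ) :
    Ideal (MvPolynomial ((Fin n × Fin n) ⊕ (Fin n × Fin n)) K) :=
  Ideal.span (Set.range fun i : Fin n => commC K n i i)

/-- The ideal `J` generated by the anti-diagonal entries `c_{i, n+1-i}` of `C`
(with indices starting from `0`, the entry in row `i` and column `Fin.rev i = n - 1 - i`). -/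
noncomputable def idealJ (K : Type u) [Field K] (n : ℕ) :
    Ideal (MvPolynomial ((Fin n × Fin n) ⊕ (Fin n × Fin n)) K) :=
  Ideal.span (Set.range fun i : Fin n => commC K n i (Fin.rev i))

open Pool.Agent.Lib.MP_bf1dc4_ag

lemma commC_eq (K : Type u) [Field K] (n : ℕ) (p q : Fin n) :
    commC K n p q = cpoly K p q := by
  rw [commC, Matrix.sub_apply, Matrix.mul_apply, Matrix.mul_apply, cpoly]
  rfl

lemma trace_zero (K : Type u) [Field K] (n : ℕ) : ∑ p : Fin n, cpoly K p p = 0 := by
  have h : ∀ p : Fin n, cpoly K p p =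
      ∑ k, xv K p k * yv K k p - ∑ k, yv K p k * xv K k p := fun p => rfl
  simp only [h]
  rw [Finset.sum_sub_distrib, sub_eq_zero]
  rw [Finset.sum_comm]
  apply Finset.sum_congr rfl
  intro p _
  apply Finset.sum_congr rfl
  intro k _
  rw [mul_comm]

lemma prime_of_set (K : Type u) [Field K] {r s : ℕ} (S : Set (Idx r s)) :
    (Ideal.span ((fun i : Idx r s => cpoly K i.p i.q) '' S)).IsPrime := by
  have h := cprime K (Set.toFinite S).toFinset
  rwa [Set.Finite.coe_toFinset] at h

/-- **Main result.**  For every field `K` and every `n ≥ 3` the ideals `I + J` and `J` are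
prime. -/
theorem result (K : Type u) [Field K] (n : ℕ) (hn : 3 ≤ n) :
    (idealI K n ⊔ idealJ K n).IsPrime ∧ (idealJ K n).IsPrime := by
  obtain ⟨r, s, rfl, hs, hr⟩ : ∃ r s, n = r + s + 1 ∧ (s = r ∨ s = r + 1) ∧ 1 ≤ r :=
    ⟨(n - 1) / 2, n - 1 - (n - 1) / 2, by omega, by omega, by omega⟩
  have hrev : ∀ p : Fin (r + s + 1), (p : ℕ) + (Fin.rev p : ℕ) = r + s := by
    intro p
    rw [Fin.val_rev]
    omega
  have eqn_rev : ∀ p : Fin (r + s + 1), Eqn r s p (Fin.rev p) := by
    intro p
    have h1 := hrev p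
    exact ⟨hr, hs, by omega, by omega, Or.inr h1, by omega⟩
  have eqn_diag : ∀ p : Fin (r + s + 1), (p : ℕ) ≠ 0 → Eqn r s p p := by
    intro p hp
    exact ⟨hr, hs, by omega, by omega, Or.inl rfl, by omega⟩
  have hJ : idealJ K (r + s + 1) =
      Ideal.span ((fun i : Idx r s => cpoly K i.p i.q) '' {i | i.q = Fin.rev i.p}) := by
    rw [idealJ]
    congr 1
    ext f
    constructor
    · rintro ⟨p, rfl⟩
      exact ⟨⟨p, Fin.rev p, eqn_rev p⟩, rfl, (commC_eq K _ p (Fin.rev p)).symm⟩
    · rintro ⟨i, hi, rfl⟩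
      refine ⟨i.p, ?_⟩
      show commC K (r + s + 1) i.p (Fin.rev i.p) = cpoly K i.p i.q
      rw [commC_eq, show i.q = Fin.rev i.p from hi]
  have hI : idealI K (r + s + 1) ⊔ idealJ K (r + s + 1) =
      Ideal.span ((fun i : Idx r s => cpoly K i.p i.q) '' Set.univ) := by
    apply le_antisymm
    · apply sup_le
      · rw [idealI, Ideal.span_le]
        have hne : ∀ p : Fin (r + s + 1), (p : ℕ) ≠ 0 → cpoly K p p ∈
            Ideal.span ((fun i : Idx r s => cpoly K i.p i.q) '' Set.univ) := by
          intro p hp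
          exact Ideal.subset_span ⟨⟨p, p, eqn_diag p hp⟩, Set.mem_univ _, rfl⟩
        rintro _ ⟨p, rfl⟩
        show commC K (r + s + 1) p p ∈ _
        rw [commC_eq]
        by_cases hp : (p : ℕ) = 0
        · have h1 := trace_zero K (r + s + 1)
          rw [← Finset.add_sum_erase _ _ (Finset.mem_univ p)] at h1
          rw [eq_neg_of_add_eq_zero_left h1]
          apply neg_mem
          apply Ideal.sum_mem
          intro k hk
          apply hne
          intro hk0
          rw [Finset.mem_erase] at hk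
          exact hk.1 (Fin.ext (by rw [hk0, hp]))
        · exact hne p hp
      · rw [hJ]
        exact Ideal.span_mono (Set.image_mono (Set.subset_univ _))
    · rw [Ideal.span_le]
      rintro _ ⟨i, _, rfl⟩
      show cpoly K i.p i.q ∈ _
      rw [← commC_eq]
      rcases i.e.h with h | h
      · apply Ideal.mem_sup_left
        rw [show i.q = i.p from (Fin.ext h).symm]
        exact Ideal.subset_span ⟨i.p, rfl⟩
      · apply Ideal.mem_sup_right
        have h2 := hrev i.p
        rw [show i.q = Fin.rev i.p from Fin.ext (by omega)]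
        exact Ideal.subset_span ⟨i.p, rfl⟩
  rw [hI, hJ]
  exact ⟨prime_of_set K _, prime_of_set K _⟩

end Pool.Agent.Results.MP_bf1dc4_ag.PrimeAll
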